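import Mathlib

set_option autoImplicit false

open Set Topology Filter

namespace Pool.Agent.Results.MP_005a41_gt.NotSStable

/-- `C_p(X)`: continuous real functions, as a linear subspace of `X → ℝ` with the topology of
pointwise convergence. -/
def Cp (X : Type) [TopologicalSpace X] : Submodule ℝ (X → ℝ) where
  carrier := {f | Continuous f}
  add_mem' hf hg := Continuous.add hf hg
  zero_mem' := continuous_const
  smul_mem' c _ hf := Continuous.const_smul hf c

theorem finite_support (ℓ : OnePoint ℕ → ((ℕ → ℝ) →L[ℝ] ℝ))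
    (h : ∀ g, ∃ C, ∀ k, |ℓ k g| ≤ C) :
    ∃ S : Finset ℕ, ∀ g : ℕ → ℝ, (∀ i ∈ S, g i = 0) → ∀ k, ℓ k g = 0 := by
  have hcl : ∀ m : ℕ, IsClosed {g : ℕ → ℝ | ∀ k, |ℓ k g| ≤ (m : ℝ)} := by
    intro m
    have : {g : ℕ → ℝ | ∀ k, |ℓ k g| ≤ (m : ℝ)} = ⋂ k, {g : ℕ → ℝ | |ℓ k g| ≤ (m : ℝ)} := by
      ext g; simp
    rw [this]
    exact isClosed_iInter (fun k => isClosed_le ((ℓ k).continuous.abs) continuous_const)
  have hun : ⋃ m : ℕ, {g : ℕ → ℝ | ∀ k, |ℓ k g| ≤ (m : ℝ)} = univ := by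
    rw [eq_univ_iff_forall]
    intro g
    obtain ⟨C, hC⟩ := h g
    obtain ⟨m, hm⟩ := exists_nat_ge C
    exact mem_iUnion.mpr ⟨m, fun k => (hC k).trans hm⟩
  obtain ⟨m, g0, hg0⟩ := nonempty_interior_of_iUnion_of_closed hcl hun
  obtain ⟨I, u, hu, hsub⟩ := isOpen_pi_iff.mp isOpen_interior g0 hg0
  refine ⟨I, fun g hg k => ?_⟩
  have hb : ∀ t : ℝ, |ℓ k g0 + t * ℓ k g| ≤ m := by
    intro t
    have h1 : g0 + t • g ∈ (I : Set ℕ).pi u := by
      intro a ha
      have h2 : (g0 + t • g) a = g0 a := by simp [hg a ha]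
      rw [h2]
      exact (hu a ha).2
    have h3 := interior_subset (hsub h1)
    have h4 := h3 k
    simpa using h4
  by_contra hne
  have h1 := hb (((m : ℝ) + 1 - ℓ k g0) / ℓ k g)
  rw [div_mul_cancel₀ _ hne] at h1
  have h2 := le_abs_self (ℓ k g0 + ((m : ℝ) + 1 - ℓ k g0))
  linarith

theorem exists_comb {m : ℕ} (S : Finset ℕ) (hS : S.card = m) (v : ℕ → ℕ → ℝ) :
    ∃ lam : ℕ → ℝ, (∀ i ∈ S, ∑ j ∈ Finset.range (m + 1), lam j * v i j = 0) ∧
      ∃ j0 ∈ Finset.range (m + 1), lam j0 ≠ 0 := by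
  classical
  have hli : ¬ LinearIndependent ℝ (fun (j : Fin (m + 1)) (i : S) => v i j) := by
    intro h
    have h1 := h.fintype_card_le_finrank
    rw [Module.finrank_fintype_fun_eq_card, Fintype.card_fin, Fintype.card_coe, hS] at h1
    omega
  rw [Fintype.not_linearIndependent_iff] at hli
  obtain ⟨g, hg, j0, hj0⟩ := hli
  refine ⟨fun n => if h : n < m + 1 then g ⟨n, h⟩ else 0, fun i hi => ?_, (j0 : ℕ),
    Finset.mem_range.2 j0.2, ?_⟩
  · have h2 := congrFun hg ⟨i, hi⟩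
    simp only [Finset.sum_apply, Pi.smul_apply, smul_eq_mul, Pi.zero_apply] at h2
    rw [Finset.sum_range]
    refine Eq.trans (Finset.sum_congr rfl fun j _ => ?_) h2
    show (if h : (j : ℕ) < m + 1 then g ⟨(j : ℕ), h⟩ else 0) * v i j = g j * v i j
    rw [dif_pos j.2]
  · show (if h : (j0 : ℕ) < m + 1 then g ⟨(j0 : ℕ), h⟩ else 0) ≠ 0
    rw [dif_pos j0.2]
    exact hj0

theorem bound_of_cont {X : Type} [TopologicalSpace X] (Ψ : Cp X →L[ℝ] ℝ) :
    ∃ C : ℝ, 0 < C ∧ ∀ (e : Cp X) (B : ℝ), 0 ≤ B → (∀ x, |e.1 x| ≤ B) → |Ψ e| ≤ C * B := by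
  have h1 : {e : Cp X | |Ψ e| < 1} ∈ 𝓝 (0 : Cp X) := by
    have hc : Continuous (fun e : Cp X => |Ψ e|) := Ψ.continuous.abs
    refine hc.continuousAt.preimage_mem_nhds (t := Set.Iio 1) ?_
    refine Iio_mem_nhds ?_
    simp
  rw [nhds_subtype_eq_comap, Filter.mem_comap] at h1
  obtain ⟨U, hU, hUs⟩ := h1
  rw [nhds_pi, Filter.mem_pi] at hU
  obtain ⟨I, hI, t, ht, hIt⟩ := hU
  have h2 : ∀ i, ∃ ε : ℝ, 0 < ε ∧ Metric.ball (0 : ℝ) ε ⊆ t i := by
    intro i
    have := ht i
    obtain ⟨ε, hε, h⟩ := Metric.mem_nhds_iff.1 this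
    exact ⟨ε, hε, h⟩
  choose ε hε hεt using h2
  have h3 : ∀ᶠ δ in 𝓝[>] (0 : ℝ), ∀ i ∈ I, δ < ε i := by
    refine (Filter.eventually_all_finite hI).2 (fun i _ => ?_)
    exact Filter.mem_of_superset (Ioo_mem_nhdsGT (hε i)) (fun x hx => hx.2)
  obtain ⟨δ, hδ, hδ0⟩ := (h3.and self_mem_nhdsWithin).exists
  have hδ0' : 0 < δ := hδ0
  refine ⟨2 / δ, by positivity, ?_⟩
  intro e B hB he
  rcases hB.eq_or_lt with hB0 | hB0
  · have he0 : e = 0 := by
      apply Subtype.ext
      funext x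
      have := he x
      rw [← hB0] at this
      exact abs_nonpos_iff.1 this
    rw [he0, ← hB0]; simp
  · have hmem : |Ψ ((δ / (2 * B)) • e)| < 1 := by
      have : (δ / (2 * B)) • e ∈ {e : Cp X | |Ψ e| < 1} := by
        apply hUs
        apply hIt
        intro i hi
        apply hεt i
        rw [mem_ball_zero_iff, Real.norm_eq_abs]
        have hval : (((δ / (2 * B)) • e : Cp X) : X → ℝ) i = (δ / (2 * B)) * e.1 i := rfl
        rw [hval, abs_mul, abs_of_pos (by positivity)]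
        calc δ / (2 * B) * |e.1 i| ≤ δ / (2 * B) * B :=
              mul_le_mul_of_nonneg_left (he i) (by positivity)
          _ = δ / 2 := by field_simp
          _ < δ := by linarith
          _ < ε i := hδ i hi
      exact this
    rw [map_smul, smul_eq_mul, abs_mul, abs_of_pos (by positivity)] at hmem
    have h5 : δ / (2 * B) * |Ψ e| < 1 := hmem
    rw [div_mul_eq_mul_div, div_lt_one (by positivity)] at h5
    rw [div_mul_eq_mul_div, le_div_iff₀ hδ0']
    linarith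

/-- the embedding of `ℝ^ℕ` -/
noncomputable def jj (Z : Type) [TopologicalSpace Z] : (ℕ → ℝ) →L[ℝ] Cp (ℕ ⊕ Z) where
  toFun g := ⟨Sum.elim g (fun _ => 0), by
    refine continuous_sum_dom.2 ⟨?_, ?_⟩
    · exact continuous_of_discreteTopology
    · exact continuous_const⟩
  map_add' g h := by
    apply Subtype.ext
    funext x
    rcases x with x | x <;> simp
  map_smul' c g := by
    apply Subtype.ext
    funext x
    rcases x with x | x <;> simp
  cont := by
    refine Continuous.subtype_mk (continuous_pi fun x => ?_) _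
    rcases x with x | x
    · exact continuous_apply x
    · exact continuous_const

theorem main (Z : Type) [TopologicalSpace Z] [CompactSpace Z]
    (T : Cp ((ℕ ⊕ Z) × OnePoint ℕ) ≃L[ℝ] Cp (ℕ ⊕ Z)) : False := by
  classical
  let ev : (p : (ℕ ⊕ Z) × OnePoint ℕ) → (Cp ((ℕ ⊕ Z) × OnePoint ℕ) →L[ℝ] ℝ) :=
    fun p => (ContinuousLinearMap.proj p).comp (Submodule.subtypeL _)
  have hev : ∀ p h, ev p h = h.1 p := fun p h => rfl
  let ℓ : ℕ → OnePoint ℕ → ((ℕ → ℝ) →L[ℝ] ℝ) := fun n k =>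
    (ev (Sum.inl n, k)).comp ((T.symm : _ →L[ℝ] _).comp (jj Z))
  have hℓ : ∀ n k g, ℓ n k g = (T.symm (jj Z g)).1 (Sum.inl n, k) := fun n k g => rfl
  have hS : ∀ n, ∃ S : Finset ℕ, ∀ g : ℕ → ℝ, (∀ i ∈ S, g i = 0) → ∀ k, ℓ n k g = 0 := by
    intro n
    refine finite_support (ℓ n) fun g => ?_
    have hc : Continuous fun k : OnePoint ℕ => |(T.symm (jj Z g)).1 (Sum.inl n, k)| :=
      (((T.symm (jj Z g)).2 : Continuous _).comp (continuous_const.prodMk continuous_id)).abs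
    obtain ⟨C, hC⟩ := (isCompact_range hc).bddAbove
    exact ⟨C, fun k => hC ⟨k, rfl⟩⟩
  choose S hS using hS
  have hcomb := fun n => exists_comb (S n) rfl
    (fun i j => ℓ n ((j : ℕ) : OnePoint ℕ) (Pi.single i 1))
  choose lam hlam j0 hj0 hne using hcomb
  let Ψ : ℕ → (Cp ((ℕ ⊕ Z) × OnePoint ℕ) →L[ℝ] ℝ) := fun n =>
    ∑ j ∈ Finset.range ((S n).card + 1), lam n j • ev (Sum.inl n, ((j : ℕ) : OnePoint ℕ))
  have hΨ : ∀ n h, Ψ n h = ∑ j ∈ Finset.range ((S n).card + 1),
      lam n j * h.1 (Sum.inl n, ((j : ℕ) : OnePoint ℕ)) := by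
    intro n h
    simp [Ψ, ContinuousLinearMap.sum_apply, hev]
  have hΨj : ∀ n g, Ψ n (T.symm (jj Z g)) = 0 := by
    intro n g
    set g1 : ℕ → ℝ := ∑ i ∈ S n, g i • Pi.single i (1:ℝ) with hg1
    have h2 : ∀ k, ℓ n k (g - g1) = 0 := by
      refine hS n _ fun i hi => ?_
      simp [hg1, Finset.sum_apply, Pi.single_apply, hi]
    rw [hΨ]
    have h3 : ∀ j : ℕ, (T.symm (jj Z g)).1 (Sum.inl n, ((j : ℕ) : OnePoint ℕ)) =
        ∑ i ∈ S n, g i * ℓ n ((j : ℕ) : OnePoint ℕ) (Pi.single i 1) := by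
      intro j
      rw [← hℓ]
      have h4 := h2 ((j : ℕ) : OnePoint ℕ)
      rw [map_sub, sub_eq_zero] at h4
      rw [h4, hg1, map_sum]
      simp
    simp_rw [h3, Finset.mul_sum]
    rw [Finset.sum_comm]
    refine Finset.sum_eq_zero fun i hi => ?_
    have h5 := hlam n i hi
    calc ∑ j ∈ Finset.range ((S n).card + 1), lam n j * (g i * ℓ n ((j : ℕ) : OnePoint ℕ) (Pi.single i 1))
        = g i * ∑ j ∈ Finset.range ((S n).card + 1), lam n j * ℓ n ((j : ℕ) : OnePoint ℕ) (Pi.single i 1) := by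
          rw [Finset.mul_sum]
          refine Finset.sum_congr rfl fun j _ => by ring
      _ = 0 := by rw [h5, mul_zero]
  -- bounds
  have hC : ∀ n, ∃ C : ℝ, 0 < C ∧ ∀ (e : Cp (ℕ ⊕ Z)) (B : ℝ), 0 ≤ B →
      (∀ z : Z, |e.1 (Sum.inr z)| ≤ B) → |Ψ n (T.symm e)| ≤ C * B := by
    intro n
    obtain ⟨C, hC0, hC⟩ := bound_of_cont ((Ψ n).comp
      (T.symm : Cp (ℕ ⊕ Z) →L[ℝ] Cp ((ℕ ⊕ Z) × OnePoint ℕ)))
    refine ⟨C, hC0, fun e B hB he => ?_⟩
    have h1 : Ψ n (T.symm e) = Ψ n (T.symm (e - jj Z fun m => e.1 (Sum.inl m))) := by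
      rw [map_sub, map_sub, hΨj, sub_zero]
    rw [h1]
    refine hC _ B hB fun x => ?_
    rcases x with x | x
    · have : (e - jj Z fun m => e.1 (Sum.inl m)).1 (Sum.inl x) = 0 := by
        simp [jj]
      rw [this, abs_zero]
      exact hB
    · have : (e - jj Z fun m => e.1 (Sum.inl m)).1 (Sum.inr x) = e.1 (Sum.inr x) := by
        simp [jj]
      rw [this]
      exact he x
  choose C hC0 hC using hC
  -- the bad function
  let v : ℕ → OnePoint ℕ → ℝ := fun n k => if k = ((j0 n : ℕ) : OnePoint ℕ) then 1 else 0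
  have hv : ∀ n, Continuous (v n) := by
    intro n
    have ho : IsOpen ({((j0 n : ℕ) : OnePoint ℕ)} : Set (OnePoint ℕ)) := by
      have := OnePoint.isOpenEmbedding_coe.isOpenMap {j0 n} (isOpen_discrete _)
      simpa using this
    have hcl : IsClopen ({((j0 n : ℕ) : OnePoint ℕ)} : Set (OnePoint ℕ)) := ⟨isClosed_singleton, ho⟩
    refine continuous_if' ?_ ?_ continuousOn_const continuousOn_const
    · intro a ha
      rw [show {x | x = ((j0 n : ℕ) : OnePoint ℕ)} = {((j0 n : ℕ) : OnePoint ℕ)} from rfl,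
        hcl.frontier_eq] at ha
      exact absurd ha (by simp)
    · intro a ha
      rw [show {x | x = ((j0 n : ℕ) : OnePoint ℕ)} = {((j0 n : ℕ) : OnePoint ℕ)} from rfl,
        hcl.frontier_eq] at ha
      exact absurd ha (by simp)
  let H : (ℕ ⊕ Z) × OnePoint ℕ → ℝ := fun p => match p with
    | (Sum.inl n, k) => (n * C n / lam n (j0 n)) * v n k
    | (Sum.inr _, _) => 0
  have hH : Continuous H := by
    have h1 : Continuous (fun q : (ℕ × OnePoint ℕ) ⊕ (Z × OnePoint ℕ) =>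
        Sum.elim (fun q : ℕ × OnePoint ℕ => (q.1 * C q.1 / lam q.1 (j0 q.1)) * v q.1 q.2)
          (fun _ => (0:ℝ)) q) := by
      refine continuous_sum_dom.2 ⟨?_, continuous_const⟩
      change Continuous (fun q : ℕ × OnePoint ℕ => (q.1 * C q.1 / lam q.1 (j0 q.1)) * v q.1 q.2)
      refine continuous_prod_of_discrete_left.2 fun n => ?_
      have h3 : Continuous fun k : OnePoint ℕ => (n * C n / lam n (j0 n)) * v n k :=
        continuous_const.mul (hv n)
      exact h3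
    have h2 := h1.comp (Homeomorph.sumProdDistrib (X := ℕ) (Y := Z)
      (Z := OnePoint ℕ)).continuous
    refine h2.congr fun p => ?_
    rcases p with ⟨x | x, k⟩
    · rfl
    · rfl
  let h : Cp ((ℕ ⊕ Z) × OnePoint ℕ) := ⟨H, hH⟩
  have hΨh : ∀ n, Ψ n h = n * C n := by
    intro n
    rw [hΨ, Finset.sum_eq_single (j0 n)]
    · change lam n (j0 n) * ((n * C n / lam n (j0 n)) * v n ((j0 n : ℕ) : OnePoint ℕ)) = _
      simp only [v, if_true]
      field_simp [hne n]
    · intro j _ hj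
      change lam n j * ((n * C n / lam n (j0 n)) * v n ((j : ℕ) : OnePoint ℕ)) = 0
      have : ((j : ℕ) : OnePoint ℕ) ≠ ((j0 n : ℕ) : OnePoint ℕ) := by
        intro h
        exact hj (OnePoint.coe_injective h)
      simp only [v, if_neg this]
      ring
    · intro h
      exact absurd (hj0 n) h
  have hcz : Continuous fun z : Z => |(T h).1 (Sum.inr z)| :=
    (((T h).2 : Continuous _).comp continuous_inr).abs
  obtain ⟨B, hB⟩ := (isCompact_range hcz).bddAbove
  have hB' : ∀ z : Z, |(T h).1 (Sum.inr z)| ≤ max B 0 := fun z =>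
    (hB ⟨z, rfl⟩).trans (le_max_left _ _)
  obtain ⟨n, hn⟩ := exists_nat_gt (max B 0)
  have h6 := hC n (T h) (max B 0) (le_max_right _ _) hB'
  rw [T.symm_apply_apply, hΨh, abs_of_nonneg (mul_nonneg (Nat.cast_nonneg _) (hC0 n).le)] at h6
  have h7 : (n : ℝ) ≤ max B 0 := by
    have := hC0 n
    nlinarith
  linarith


/-- `X` is `S`-stable: `C_p (X × (ω + 1))` and `C_p X` are linearly homeomorphic. Here `ω + 1` is
the one-point compactification of `ℕ`, and `C_p` is the set of continuous real functions with the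
topology of pointwise convergence. -/
def SStable (X : Type) [TopologicalSpace X] : Prop :=
  ∃ T : {f : X × OnePoint ℕ → ℝ // Continuous f} ≃ₜ {f : X → ℝ // Continuous f},
    (∀ f g h : {f : X × OnePoint ℕ → ℝ // Continuous f}, (∀ p, h.1 p = f.1 p + g.1 p) →
      ∀ x, (T h).1 x = (T f).1 x + (T g).1 x) ∧
    ∀ (c : ℝ) (f h : {f : X × OnePoint ℕ → ℝ // Continuous f}), (∀ p, h.1 p = c * f.1 p) →
      ∀ x, (T h).1 x = c * (T f).1 x

theorem exists_cle {X : Type} [TopologicalSpace X] (h : SStable X) :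
    Nonempty (Cp (X × OnePoint ℕ) ≃L[ℝ] Cp X) := by
  obtain ⟨T, h1, h2⟩ := h
  refine ⟨{
    toFun := fun f => ⟨(T ⟨f.1, f.2⟩).1, (T ⟨f.1, f.2⟩).2⟩
    map_add' := fun f g => Subtype.ext (funext fun x =>
      h1 ⟨f.1, f.2⟩ ⟨g.1, g.2⟩ ⟨(f + g).1, (f + g).2⟩ (fun p => rfl) x)
    map_smul' := fun c f => Subtype.ext (funext fun x =>
      h2 c ⟨f.1, f.2⟩ ⟨(c • f).1, (c • f).2⟩ (fun p => rfl) x)
    invFun := fun f => ⟨(T.symm ⟨f.1, f.2⟩).1, (T.symm ⟨f.1, f.2⟩).2⟩
    left_inv := fun f => Subtype.ext (congrArg Subtype.val (T.symm_apply_apply ⟨f.1, f.2⟩))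
    right_inv := fun f => Subtype.ext (congrArg Subtype.val (T.apply_symm_apply ⟨f.1, f.2⟩))
    continuous_toFun := T.continuous
    continuous_invFun := T.symm.continuous }⟩

/-- For every compact space `Z` the sum of a countable discrete space and `Z` is not `S`-stable.
Consequently there is an infinite separable metrizable space which is not discrete and not `S`-stable. -/
theorem result :
    (∀ (Z : Type) [TopologicalSpace Z] [CompactSpace Z], ¬ SStable (ℕ ⊕ Z)) ∧
    ∃ (X : Type) (_ : TopologicalSpace X), TopologicalSpace.MetrizableSpace X ∧ Infinite X ∧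
      SecondCountableTopology X ∧ ¬ DiscreteTopology X ∧ ¬ SStable X := by
  have h : ∀ (Z : Type) [TopologicalSpace Z] [CompactSpace Z], ¬ SStable (ℕ ⊕ Z) :=
    fun Z _ _ hs => (exists_cle hs).elim fun T => main Z T
  refine ⟨h, ℕ ⊕ unitInterval, inferInstance, ?_, inferInstance, inferInstance, ?_, h _⟩
  · infer_instance
  · intro hd
    have h1 : DiscreteTopology unitInterval :=
      (Topology.IsEmbedding.inr (X := ℕ) (Y := unitInterval)).discreteTopology
    have h2 : Finite unitInterval := finite_of_compact_of_discrete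
    exact (Set.Icc_infinite (zero_lt_one' ℝ)) (Set.toFinite _)

end Pool.Agent.Results.MP_005a41_gt.NotSStable
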